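import Pool.Agent.KS6_3.ZL.H387R3.ZT.Stmts
import Pool.Agent.KS6_3.ZL.H525R3.FFp.Sep

/-!
Project ZT, TaskC0 (helper510): an inseparable function is a `p`-th power.
-/

set_option autoImplicit false

open IntermediateField FF
open scoped KaehlerDifferential

namespace Pool.Agent.H510R3.ZT

section
variable {k F : Type} [Field k] [Field F] [Algebra k F] (p : ℕ) [Fact p.Prime]
  [Finite k] [CharP k p] [CharP F p]

/-- the field of `p`-th powers -/
noncomputable def PP (k F : Type) [Field k] [Field F] [Algebra k F] (p : ℕ) [Fact p.Prime]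
    [Finite k] [CharP k p] [CharP F p] : IntermediateField k F :=
  (frobenius F p).fieldRange.toIntermediateField (by
    intro c
    obtain ⟨d, hd⟩ := Finite.injective_iff_surjective.1 (frobenius_inj k p) c
    refine ⟨algebraMap k F d, ?_⟩
    rw [← hd, frobenius_def, frobenius_def, map_pow])

theorem mem_PP (y : F) : y ∈ PP k F p ↔ ∃ z : F, z ^ p = y := by
  constructor
  · rintro ⟨z, hz⟩
    exact ⟨z, hz⟩
  · rintro ⟨z, hz⟩
    exact ⟨z, hz⟩

/-- a field over which `F` is unramified and which contains the `p`-th powers is everything -/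
theorem eq_top_of_unram [h : IsFF k F] (E : IntermediateField k F) (hE : PP k F p ≤ E)
    (hu : Subsingleton (Ω[F⁄E])) : E = ⊤ := by
  have h1 : Algebra.FormallyUnramified E F := ⟨hu⟩
  have h2 := h.ess
  have h3 : Algebra.EssFiniteType E F := Algebra.EssFiniteType.of_comp k E F
  have h4 : Algebra.IsSeparable E F := Algebra.FormallyUnramified.isSeparable _ _
  have h5 : CharP E p :=
    ((algebraMap E F).charP_iff (algebraMap E F).injective p).2 inferInstance
  have h6 : ExpChar E p := ExpChar.prime (Fact.out : p.Prime)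
  have h7 : IsPurelyInseparable E F := by
    rw [isPurelyInseparable_iff_pow_mem E p]
    intro y
    refine ⟨1, ⟨⟨y ^ p, hE ((mem_PP p _).2 ⟨y, rfl⟩)⟩, ?_⟩⟩
    rw [pow_one]
    rfl
  rw [eq_top_iff]
  intro y _
  obtain ⟨z, hz⟩ := IsPurelyInseparable.surjective_algebraMap_of_isSeparable E F y
  rw [← hz]
  exact z.2

omit [Finite k] in
/-- the differentials over `E` vanish if `E` contains a generator -/
theorem unram_of_mem {x : F} (hx : ∀ ω : Ω[F⁄k], ω ∈ Submodule.span F {KaehlerDifferential.D k F x})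
    (E : IntermediateField k F) (hxE : x ∈ E) : Subsingleton (Ω[F⁄E]) := by
  have h4 : ∀ a : Ω[F⁄E], a = 0 := by
    intro a
    obtain ⟨ω, rfl⟩ := KaehlerDifferential.map_surjective k E F a
    obtain ⟨d, rfl⟩ := Submodule.mem_span_singleton.1 (hx ω)
    rw [map_smul, KaehlerDifferential.map_D]
    have h5 : algebraMap F F x = algebraMap E F ⟨x, hxE⟩ := rfl
    rw [h5, Derivation.map_algebraMap, smul_zero]
  exact ⟨fun a b => by rw [h4 a, h4 b]⟩

theorem gen_top [h : IsFF k F] {x : F} 
    (hx : ∀ ω : Ω[F⁄k], ω ∈ Submodule.span F {KaehlerDifferential.D k F x}) :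
    (PP k F p)⟮x⟯ = ⊤ := by
  have h1 := eq_top_of_unram p ((PP k F p)⟮x⟯.restrictScalars k) (by
    intro y hy
    rw [IntermediateField.mem_restrictScalars]
    exact IntermediateField.algebraMap_mem _ (⟨y, hy⟩ : PP k F p))
    (unram_of_mem hx _ (by
      rw [IntermediateField.mem_restrictScalars]
      exact IntermediateField.mem_adjoin_simple_self _ x))
  rw [eq_top_iff]
  intro y _
  have : y ∈ ((PP k F p)⟮x⟯.restrictScalars k) := by rw [h1]; trivial
  exact this

theorem isInt (x : F) : IsIntegral (PP k F p) x := by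
  refine ⟨Polynomial.X ^ p - Polynomial.C (⟨x ^ p, (mem_PP p _).2 ⟨x, rfl⟩⟩ : PP k F p),
    Polynomial.monic_X_pow_sub_C _ (Fact.out : p.Prime).ne_zero, ?_⟩
  simp only [Polynomial.eval₂_sub, Polynomial.eval₂_X_pow, Polynomial.eval₂_C]
  exact sub_self _

theorem deg_le (x : F) : (minpoly (PP k F p) x).natDegree ≤ p := by
  have h1 : Polynomial.aeval x (Polynomial.X ^ p -
      Polynomial.C (⟨x ^ p, (mem_PP p _).2 ⟨x, rfl⟩⟩ : PP k F p)) = 0 := by
    simp only [map_sub, map_pow, Polynomial.aeval_X, Polynomial.aeval_C]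
    exact sub_self _
  have h2 := Polynomial.natDegree_le_natDegree (minpoly.min (PP k F p) x
    (Polynomial.monic_X_pow_sub_C _ (Fact.out : p.Prime).ne_zero) h1)
  rwa [Polynomial.natDegree_X_pow_sub_C] at h2

theorem deg_eq (g : F) (hg : g ∉ PP k F p) : (minpoly (PP k F p) g).natDegree = p := by
  have hirr : Irreducible (Polynomial.X ^ p -
      Polynomial.C (⟨g ^ p, (mem_PP p _).2 ⟨g, rfl⟩⟩ : PP k F p)) := by
    apply X_pow_sub_C_irreducible_of_prime (Fact.out : p.Prime)
    intro b hb
    apply hg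
    have h1 : (b : F) ^ p = g ^ p := by
      have := congrArg (algebraMap (PP k F p) F) hb
      rw [map_pow] at this
      exact this
    have h2 : (b : F) = g := frobenius_inj F p h1
    rw [← h2]
    exact b.2
  have h1 : Polynomial.aeval g (Polynomial.X ^ p -
      Polynomial.C (⟨g ^ p, (mem_PP p _).2 ⟨g, rfl⟩⟩ : PP k F p)) = 0 := by
    simp only [map_sub, map_pow, Polynomial.aeval_X, Polynomial.aeval_C]
    exact sub_self _
  have h2 := minpoly.eq_of_irreducible_of_monic hirr h1
    (Polynomial.monic_X_pow_sub_C _ (Fact.out : p.Prime).ne_zero)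
  rw [← h2, Polynomial.natDegree_X_pow_sub_C]

theorem adjoin_top [h : IsFF k F] {x : F}
    (hx : ∀ ω : Ω[F⁄k], ω ∈ Submodule.span F {KaehlerDifferential.D k F x})
    (g : F) (hg : g ∉ PP k F p) : (PP k F p)⟮g⟯ = ⊤ := by
  have h1 := gen_top p hx
  have h2 : Module.finrank (PP k F p) (PP k F p)⟮x⟯ ≤ p := by
    rw [IntermediateField.adjoin.finrank (isInt p x)]
    exact deg_le p x
  have h3 : Module.finrank (PP k F p) (PP k F p)⟮g⟯ = p := by
    rw [IntermediateField.adjoin.finrank (isInt p g)]
    exact deg_eq p g hg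
  have h4 : FiniteDimensional (PP k F p) (PP k F p)⟮x⟯ :=
    IntermediateField.adjoin.finiteDimensional (isInt p x)
  have h5 : (PP k F p)⟮g⟯ ≤ (PP k F p)⟮x⟯ := by rw [h1]; exact le_top
  rw [← h1]
  exact IntermediateField.eq_of_le_of_finrank_le h5 (by rw [h3]; exact h2)

theorem pow_of_D_zero [h : IsFF k F] (hD0 : ∃ x : F, (∀ ω : Ω[F⁄k],
      ω ∈ Submodule.span F {KaehlerDifferential.D k F x}) ∧ KaehlerDifferential.D k F x ≠ 0)
    (g : F) (hg : KaehlerDifferential.D k F g = 0) : g ∈ PP k F p := by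
  by_contra hgP
  obtain ⟨x, hx, hx0⟩ := hD0
  have h1 := adjoin_top p hx g hgP
  have hgz : KaehlerDifferential.D (PP k F p) F g = 0 := by
    have := KaehlerDifferential.map_D k (PP k F p) F F g
    rw [hg, map_zero] at this
    exact this.symm
  have hall : ∀ y : F, KaehlerDifferential.D (PP k F p) F y = 0 := by
    intro y
    have hy : y ∈ (PP k F p)⟮g⟯ := by rw [h1]; trivial
    induction hy using IntermediateField.adjoin_induction with
    | mem y hy =>
      rw [Set.mem_singleton_iff] at hy
      rw [hy, hgz]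
    | algebraMap c => rw [Derivation.map_algebraMap]
    | add a b _ _ ha hb => rw [map_add, ha, hb, add_zero]
    | mul a b _ _ ha hb => rw [Derivation.leibniz, ha, hb, smul_zero, smul_zero, add_zero]
    | inv a _ ha => rw [Derivation.leibniz_inv, ha, smul_zero]
  have hsub : Subsingleton (Ω[F⁄(PP k F p)]) := by
    have h4 : ∀ a : Ω[F⁄(PP k F p)], a = 0 := by
      intro a
      have ha : a ∈ Submodule.span F (Set.range (KaehlerDifferential.D (PP k F p) F)) := by
        rw [KaehlerDifferential.span_range_derivation]; trivial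
      have h5 : Set.range (KaehlerDifferential.D (PP k F p) F) ⊆ {0} := by
        rintro _ ⟨y, rfl⟩
        exact hall y
      have h6 := Submodule.span_mono h5 ha
      rw [Submodule.span_zero_singleton, Submodule.mem_bot] at h6
      exact h6
    exact ⟨fun a b => by rw [h4 a, h4 b]⟩
  have h7 := eq_top_of_unram p (PP k F p) le_rfl hsub
  apply hgP
  rw [h7]; trivial

end

/-- TaskC0 of project ZT -/
theorem taskC0 : Pool.Agent.H387R3.ZT.TaskC0 := by
  intro p _ k F _ _ _ _ _ _ g _ hns
  have hc : CharP F p := charP_of_injective_algebraMap (algebraMap k F).injective p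
  have hD : KaehlerDifferential.D k F g = 0 := by
    by_contra h
    exact hns (Pool.Agent.H525R3.FFp.sep_of_D_ne h).2
  obtain ⟨x, hx, hsep⟩ := Pool.Agent.H525R3.FFp.exists_sep (k := k) (K := F)
  have hsp := Pool.Agent.H525R3.FFp.span_D (k := k) hsep
  have hx0 : KaehlerDifferential.D k F x ≠ 0 := by
    intro h0
    obtain ⟨y, hy⟩ := Pool.Agent.H525R3.FFp.exists_D_ne k F
    apply hy
    have := hsp (KaehlerDifferential.D k F y)
    rw [h0, Submodule.span_zero_singleton, Submodule.mem_bot] at this
    exact this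
  exact (mem_PP p g).1 (pow_of_D_zero p ⟨x, hsp, hx0⟩ g hD)

end Pool.Agent.H510R3.ZT
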